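import Pool.Agent.Helper823.ManeG.Xmfin
open MeasureTheory Set Topology
open scoped MeasureTheory
namespace Pool.Agent.Results.MP_3e2995_an.GenericUniquenessManifold
open Pool.Agent.Helper823.ManeG

/-- Closed-measure form of the generic uniqueness of homology-constrained minimizing measures on a
compact connected manifold `M` with first Betti number `d`: if `d ≤ 2`, a generic potential gives
uniqueness for every homology class; if `d ≥ 2`, a generic potential gives uniqueness for every
homology class outside a set of vanishing `(d-2)`-dimensional Hausdorff measure. -/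
theorem result {N r d : ℕ} (M : Set (E N)) (T : E N → Submodule ℝ (E N))
    (hM : IsSubmanifold r M T) (η : Fin d → E N → E N) (γ : Fin d → ℝ → E N)
    (hη : IsHomologyBasis M T η γ) (k : ℕ) (hk : 2 ≤ k) (L : Base M × E N → ℝ)
    (hL : IsTonelli k M T L) :
    (d ≤ 2 → IsResidualCk k M {f : Base M → ℝ |
      ∀ h : E d, ∃! μ, IsMinimizing M T η (fun p => L p + f p.1) h μ}) ∧
    (2 ≤ d → IsResidualCk k M {f : Base M → ℝ |
      μH[(d : ℝ) - 2]
        {h : E d | ¬ ∃! μ, IsMinimizing M T η (fun p => L p + f p.1) h μ} = 0}) := by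
  obtain ⟨O, hO, hD, hS⟩ := Pool.Agent.Helper823.ManeG.main M T hM η γ hη k hk L hL
  refine ⟨fun hd => ⟨O, hO, hD, fun f hf hfO => ?_⟩, fun hd => ⟨O, hO, hD, fun f hf hfO => ?_⟩⟩
  · have h0 := (hS f hf hfO).1 hd
    intro h
    by_contra hcon
    have hmem : h ∈ {h : E d | ¬ ∃! μ, IsMinimizing M T η (fun p => L p + f p.1) h μ} := hcon
    rw [h0] at hmem
    exact hmem
  · exact (hS f hf hfO).2 hd

end Pool.Agent.Results.MP_3e2995_an.GenericUniquenessManifold
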