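import Pool.Agent.Helper823.ManeN.Xfinal
open MeasureTheory Set Topology
open scoped MeasureTheory
namespace Pool.Agent.Results.MP_3e2995_an.GenericUniquenessTorus
open Pool.Agent.Helper823.ManeN

/-- Closed-measure form of the generic uniqueness of homology-constrained minimizing measures on
tori: on `𝕋²`, a generic potential gives uniqueness for every homology class; on `𝕋ⁿ`, `n ≥ 2`,
a generic potential gives uniqueness for every homology class outside a set of vanishing
`(n-2)`-dimensional Hausdorff measure. -/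
theorem result (k : ℕ) (hk : 2 ≤ k) :
    (∀ L : X 2 × E 2 → ℝ, IsTonelli k L →
      IsResidualCk k {f : X 2 → ℝ |
        ∀ h : E 2, ∃! μ, IsMinimizing (fun p => L p + f p.1) h μ}) ∧
    (∀ n : ℕ, 2 ≤ n → ∀ L : X n × E n → ℝ, IsTonelli k L →
      IsResidualCk k {f : X n → ℝ |
        μH[(n : ℝ) - 2] {h : E n | ¬ ∃! μ, IsMinimizing (fun p => L p + f p.1) h μ} = 0}) := by
  refine ⟨fun L hL => ?_, fun n hn L hL => Pool.Agent.Helper823.ManeN.main hn k hk L hL⟩
  obtain ⟨O, hO, hD, hS⟩ := Pool.Agent.Helper823.ManeN.main (n := 2) le_rfl k hk L hL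
  refine ⟨O, hO, hD, fun f hf hfO => ?_⟩
  have h0 := hS f hf hfO
  simp only [Set.mem_setOf_eq] at h0 ⊢
  intro h
  by_contra hcon
  have hmem : h ∈ {h : E 2 | ¬ ∃! μ, IsMinimizing (fun p => L p + f p.1) h μ} := hcon
  have hzero : ((2 : ℕ) : ℝ) - 2 = 0 := by norm_num
  rw [hzero] at h0
  have h1 : μH[(0 : ℝ)] ({h} : Set (E 2)) ≤ 0 := by
    rw [← h0]
    exact measure_mono (Set.singleton_subset_iff.mpr hmem)
  rw [MeasureTheory.Measure.hausdorffMeasure_zero_singleton] at h1
  exact absurd h1 (by norm_num)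

end Pool.Agent.Results.MP_3e2995_an.GenericUniquenessTorus
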